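import Pool.Agent.H42.Sp.TieVal

set_option autoImplicit false
open Finset

/-! # Membership in the tied forms of a window

`rt_iff`, `kt_iff` : which tiles are removed (kept) for a finite set of caps. `mem_ETp`, `mem_OTp`,
`mem_WTp` : random and open labels of the tied form. `odd_ETp` : no tile with `x + y` odd is removed.
`L_iff`, `R_iff` : the tiles of the columns in the form with all caps. -/

namespace Pool.Agent.H42.Sp

open Pool.Agent.H75.TwoArm Pool.Agent.Q1 Pool.Agent.H33.Q1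
open Pool.Agent.H69.Q1
open Pool.Agent.H46.Sp Pool.Agent.H46.Sp.Win
open Pool.Agent.H13.R45 Pool.Agent.H13.Q1
open Pool.Agent.H74.R45 (exists_lt)

variable {D : Win} {j x y : ℤ} {P : Finset Ix}

/-- the removed tile of a cap -/
theorem rt_eq {k : Ix} : rt k = (x, y) ↔ (x + y) % 2 = 0 ∧
    (k = (.L, (x, y)) ∨ k = (.L, (x, y + 1)) ∨ k = (.R, (x + 1, y)) ∨ k = (.R, (x + 1, y + 1)) ∨
      k = (.F, (x, y)) ∨ k = (.F, (x + 1, y)) ∨ k = (.C, (x, y + 1)) ∨ k = (.C, (x + 1, y + 1))) := by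
  obtain ⟨s, u, v⟩ := k
  cases s <;> (unfold rt; simp only [Prod.mk.injEq]; split_ifs <;> simp only [Prod.mk.injEq] <;>
    simp <;> omega)

/-- the kept tile of a cap -/
theorem kt_eq {k : Ix} : kt k = (x, y) ↔ (x + y) % 2 = 1 ∧
    (k = (.L, (x, y)) ∨ k = (.L, (x, y + 1)) ∨ k = (.R, (x + 1, y)) ∨ k = (.R, (x + 1, y + 1)) ∨
      k = (.F, (x, y)) ∨ k = (.F, (x + 1, y)) ∨ k = (.C, (x, y + 1)) ∨ k = (.C, (x + 1, y + 1))) := by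
  obtain ⟨s, u, v⟩ := k
  cases s <;> (unfold kt; simp only [Prod.mk.injEq]; split_ifs <;> simp only [Prod.mk.injEq] <;>
    simp <;> omega)

/-- the tile `(x, y)` is one of the two tiles of a cap of `P` -/
def InP (P : Finset Ix) (x y : ℤ) : Prop :=
  (.L, (x, y)) ∈ P ∨ (.L, (x, y + 1)) ∈ P ∨ (.R, (x + 1, y)) ∈ P ∨ (.R, (x + 1, y + 1)) ∈ P ∨
    (.F, (x, y)) ∈ P ∨ (.F, (x + 1, y)) ∈ P ∨ (.C, (x, y + 1)) ∈ P ∨ (.C, (x + 1, y + 1)) ∈ P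

theorem InP_iff : InP P x y ↔ ∃ k ∈ P, kt k = (x, y) ∨ rt k = (x, y) := by
  constructor
  · intro h
    have key : ∀ k : Ix, k ∈ P → (k = (.L, (x, y)) ∨ k = (.L, (x, y + 1)) ∨ k = (.R, (x + 1, y)) ∨
        k = (.R, (x + 1, y + 1)) ∨ k = (.F, (x, y)) ∨ k = (.F, (x + 1, y)) ∨ k = (.C, (x, y + 1)) ∨
        k = (.C, (x + 1, y + 1))) → ∃ k ∈ P, kt k = (x, y) ∨ rt k = (x, y) := by
      intro k hk h
      rcases Int.emod_two_eq_zero_or_one (x + y) with h0 | h0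
      · exact ⟨k, hk, Or.inr (rt_eq.2 ⟨h0, h⟩)⟩
      · exact ⟨k, hk, Or.inl (kt_eq.2 ⟨h0, h⟩)⟩
    rcases h with h | h | h | h | h | h | h | h <;> exact key _ h (by tauto)
  · rintro ⟨k, hk, h⟩
    have h' : (k = (.L, (x, y)) ∨ k = (.L, (x, y + 1)) ∨ k = (.R, (x + 1, y)) ∨
        k = (.R, (x + 1, y + 1)) ∨ k = (.F, (x, y)) ∨ k = (.F, (x + 1, y)) ∨ k = (.C, (x, y + 1)) ∨
        k = (.C, (x + 1, y + 1))) := by
      rcases h with h | h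
      · exact (kt_eq.1 h).2
      · exact (rt_eq.1 h).2
    unfold InP
    rcases h' with h' | h' | h' | h' | h' | h' | h' | h' <;> subst h' <;> tauto

/-- the removed tiles -/
theorem rts_iff : (∃ k ∈ P, rt k = (x, y)) ↔ (x + y) % 2 = 0 ∧ InP P x y := by
  rw [InP_iff]
  constructor
  · rintro ⟨k, hk, h⟩
    exact ⟨(rt_eq.1 h).1, k, hk, Or.inr h⟩
  · rintro ⟨h0, k, hk, h | h⟩
    · have := (kt_eq.1 h).1
      omega
    · exact ⟨k, hk, h⟩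

/-- the ties -/
theorem kts_iff : (∃ k ∈ P, kt k = (x, y)) ↔ (x + y) % 2 = 1 ∧ InP P x y := by
  rw [InP_iff]
  constructor
  · rintro ⟨k, hk, h⟩
    exact ⟨(kt_eq.1 h).1, k, hk, Or.inl h⟩
  · rintro ⟨h0, k, hk, h | h⟩
    · exact ⟨k, hk, h⟩
    · have := (rt_eq.1 h).1
      omega

/-- random tiles of the tied form -/
theorem mem_ETp : lt (x, y) ∈ ETp D j P ↔ D.InE j x y ∧ ¬ ((x + y) % 2 = 0 ∧ InP P x y) := by
  unfold ETp
  rw [mem_sdiff, mem_EJ, ← rts_iff, mem_image]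
  constructor
  · rintro ⟨h1, h2⟩
    exact ⟨h1, fun ⟨k, hk, h3⟩ => h2 ⟨k, hk, by rw [h3]⟩⟩
  · rintro ⟨h1, h2⟩
    exact ⟨h1, fun ⟨k, hk, h3⟩ => h2 ⟨k, hk, lt_inj h3⟩⟩

theorem odd_ETp (h : (x + y) % 2 = 1) : lt (x, y) ∈ ETp D j P ↔ D.InE j x y := by
  rw [mem_ETp]
  exact ⟨fun h => h.1, fun h2 => ⟨h2, fun h3 => by omega⟩⟩

/-- removed tiles which are open -/
theorem mem_OTp : lt (x, y) ∈ OTp P ↔ (x + y) % 2 = 0 ∧ ((.L, (x, y)) ∈ P ∨ (.R, (x + 1, y + 1)) ∈ P ∨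
    (.F, (x, y)) ∈ P ∨ (.C, (x + 1, y + 1)) ∈ P) := by
  unfold OTp
  simp only [mem_image, mem_filter]
  constructor
  · rintro ⟨k, ⟨hk, he⟩, h⟩
    have h2 := rt_eq.1 (lt_inj h)
    refine ⟨h2.1, ?_⟩
    rcases h2.2 with h' | h' | h' | h' | h' | h' | h' | h' <;> subst h' <;>
      first
        | tauto
        | (exfalso; have := ev_true.1 he; omega)
  · rintro ⟨h0, h | h | h | h⟩
    · exact ⟨_, ⟨h, ev_true.2 h0⟩, by rw [rt_eq.2 ⟨h0, by tauto⟩]⟩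
    · exact ⟨_, ⟨h, ev_true.2 (by omega)⟩, by rw [rt_eq.2 ⟨h0, by tauto⟩]⟩
    · exact ⟨_, ⟨h, ev_true.2 h0⟩, by rw [rt_eq.2 ⟨h0, by tauto⟩]⟩
    · exact ⟨_, ⟨h, ev_true.2 (by omega)⟩, by rw [rt_eq.2 ⟨h0, by tauto⟩]⟩

/-- open tiles of the tied form -/
theorem mem_WTp {Wo : Finset (ℤ × ℤ)} : lt (x, y) ∈ WTp D j P Wo ↔ D.InC j x y ∨ D.InX x y ∨
    lt (x, y) ∈ Wo ∨ ((x + y) % 2 = 0 ∧ ((.L, (x, y)) ∈ P ∨ (.R, (x + 1, y + 1)) ∈ P ∨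
    (.F, (x, y)) ∈ P ∨ (.C, (x + 1, y + 1)) ∈ P)) := by
  unfold WTp WJ
  rw [mem_union, mem_union, Win.mem_WR, mem_OTp]
  tauto

theorem odd_WTp {Wo : Finset (ℤ × ℤ)} (h : (x + y) % 2 = 1) : lt (x, y) ∈ WTp D j P Wo ↔
    lt (x, y) ∈ D.WJ j Wo := by
  unfold WTp
  rw [mem_union, mem_OTp]
  exact ⟨fun h2 => h2.resolve_right fun h3 => by omega, Or.inl⟩

end Pool.Agent.H42.Sp
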