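import Pool.Agent.H42.Sp.TieEnv

set_option autoImplicit false
open Finset

/-! # The weights of the ties of a window

`wk D j a b c k` : weight of the line at the cap `k` (`a` in a row, `b` on columns where the line goes to the
south, `c` on columns where it goes to the north). `tw g w` : weight of a tie at the point `g`, `1 - w (1 - w)`
if `g` is a face (kept label open with this weight), `w (1 - w)` if `g` is a vertex. `qTp_tie` : the weight of
the tie of the cap `k` is `tw k.2 (wk D j a b c k)`. -/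

namespace Pool.Agent.H42.Sp

open Pool.Agent.H75.TwoArm Pool.Agent.Q1 Pool.Agent.H33.Q1
open Pool.Agent.H69.Q1
open Pool.Agent.H46.Sp Pool.Agent.H46.Sp.Win
open Pool.Agent.H13.R45 Pool.Agent.H13.Q1
open Pool.Agent.H74.R45 (exists_lt)

variable {D : Win} {j : ℤ} {a b c : ℂ}

/-- weight of the line at a cap -/
noncomputable def wk (D : Win) (j : ℤ) (a b c : ℂ) : Ix → ℂ
  | (.L, (_, y)) => if y < D.yP then b else c
  | (.R, (_, y)) => if j ≤ y then c else b
  | (.F, _) => a
  | (.C, _) => a

/-- weight of a tie at the point `g` -/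
noncomputable def tw (g : ℤ × ℤ) (w : ℂ) : ℂ :=
  if (g.1 + g.2) % 2 = 1 then 1 - w * (1 - w) else w * (1 - w)

theorem qJ_L {x y : ℤ} (hx : x = D.m y - 1) : D.qJ j a b c (lt (x, y)) =
    wal x y (if y < D.yP then 1 - b else 1 - c) := by
  unfold qJ
  simp only [tt_lt]
  rw [if_pos hx]

theorem qJ_R {x y : ℤ} (h0 : -1 ≤ y) (h1 : y < D.h) (hx : x = D.M y) : D.qJ j a b c (lt (x, y)) =
    wal x y (if j ≤ y then 1 - c else 1 - b) := by
  have h3 := m_lt_M h0 h1
  unfold qJ
  simp only [tt_lt]
  rw [if_neg (by omega), if_pos hx]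

/-- straight tiles of the line in a row -/
theorem qJ_row {x y : ℤ} (hj0 : 0 ≤ j) (hj1 : j ≤ D.h) (h1 : y < D.h) (h2 : D.m y ≤ x)
    (h3 : x < D.M y) (h4 : y = j - 1 ∨ (j ≤ y ∧ (x + 1 < D.a y ∨ D.b y < x)) ∨
      (-1 ≤ y ∧ y < j - 1 ∧ (x + 1 < D.a (y + 1) ∨ D.b (y + 1) < x))) :
    D.qJ j a b c (lt (x, y)) = wal x y a := by
  have hP := D.P1
  unfold qJ
  simp only [tt_lt]
  rw [if_neg (by omega), if_neg (by omega)]
  rcases h4 with h4 | ⟨h4, h5⟩ | ⟨h0, h4, h5⟩
  · rw [if_pos h4]
  · rw [if_neg (by omega), if_pos h4]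
    have h6 := D.ab y (by omega) h1
    rcases h5 with h5 | h5
    · rw [if_pos (by omega), if_neg (by omega)]
    · rw [if_neg (by omega), if_pos (by omega), if_neg (by omega)]
  · rw [if_neg (by omega), if_neg (by omega)]
    have h6 := D.ab (y + 1) (by omega) (by omega)
    rcases h5 with h5 | h5
    · rw [if_pos (by omega), if_neg (by omega)]
    · rw [if_neg (by omega), if_pos (by omega), if_neg (by omega)]

theorem mg_tw (g : ℤ × ℤ) (w : ℂ) : mg (ev g) w (1 - w) = tw g w := by
  unfold mg ev tw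
  simp only [decide_eq_true_eq]
  by_cases h : (g.1 + g.2) % 2 = 1
  · rw [if_neg (by omega), if_pos h]; ring
  · rw [if_pos (by omega), if_neg h]

theorem mg_tw' (g : ℤ × ℤ) (w : ℂ) : mg (ev g) (1 - w) w = tw g w := by
  unfold mg ev tw
  simp only [decide_eq_true_eq]
  by_cases h : (g.1 + g.2) % 2 = 1
  · rw [if_neg (by omega), if_pos h]; ring
  · rw [if_pos (by omega), if_neg h]; ring

theorem wal_odd' {x y : ℤ} {w : ℂ} (h : (x + y) % 2 = 1) : wal x y w = 1 - w := by
  unfold wal; rw [if_neg (by omega)]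

theorem wal_even' {x y : ℤ} {w : ℂ} (h : (x + y) % 2 = 0) : wal x y w = w := by
  unfold wal; rw [if_pos h]

/-- **The weights of the ties.** -/
theorem qTp_tie (h0 : 0 ≤ j) (h1 : j ≤ D.h) {P : Finset Ix} (hP : ∀ k ∈ P, CP D j k) {k : Ix}
    (hk : k ∈ P) : qTp D j P a b c (lt (kt k)) = tw k.2 (wk D j a b c k) := by
  rw [qTp_kt h0 h1 hP hk]
  have hP0 := D.P0
  have hP1 := D.P1
  have hQ0 := D.Q0
  have hQ1 := D.Q1
  have hck := hP k hk
  have e1 := kt_odd k
  have e2 := rt_even k
  clear hk hP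
  obtain ⟨s, x, y⟩ := k
  cases s
  · -- left column
    obtain ⟨hx, hS, hc⟩ := hck
    have hm : D.m (y - 1) = D.m y ∧ (y - 1 < D.yP ↔ y < D.yP) := by
      rcases hS with ⟨a1, a2⟩ | ⟨a1, a2⟩
      · have r1 := LS_rng h0 a1
        exact ⟨LS_m h0 a1 a2, by obtain ⟨-, b2, -⟩ := a1; obtain ⟨-, b3, -⟩ := a2; omega⟩
      · exact ⟨LN_m a1 a2 h1, by obtain ⟨b2, -⟩ := a1; omega⟩
    have k1 : D.qJ j a b c (lt (x, y)) = wal x y (if y < D.yP then 1 - b else 1 - c) := qJ_L hx
    have k2 : D.qJ j a b c (lt (x, y - 1)) = wal x (y - 1) (if y < D.yP then 1 - b else 1 - c) := by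
      rw [qJ_L (by omega)]; congr 1; simp only [hm.2]
    unfold wk
    simp only
    by_cases h : (x + y) % 2 = 1
    · unfold kt rt
      simp only [if_pos h]
      rw [k1, k2, wal_odd' h, wal_even' (by omega)]
      split_ifs
      · rw [show (1 : ℂ) - (1 - b) = b by ring]; exact mg_tw _ _
      · rw [show (1 : ℂ) - (1 - c) = c by ring]; exact mg_tw _ _
    · unfold kt rt
      simp only [if_neg h]
      rw [k1, k2, wal_odd' (by omega), wal_even' (by omega)]
      split_ifs
      · rw [show (1 : ℂ) - (1 - b) = b by ring]; exact mg_tw _ _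
      · rw [show (1 : ℂ) - (1 - c) = c by ring]; exact mg_tw _ _
  · -- right column
    obtain ⟨hx, hS, hc⟩ := hck
    have hm : D.M (y - 1) = D.M y ∧ (j ≤ y - 1 ↔ j ≤ y) ∧ -1 ≤ y - 1 ∧ y < D.h := by
      rcases hS with ⟨a1, a2⟩ | ⟨a1, a2⟩
      · have r1 := RS_rng h1 a1
        have r2 := RS_rng h1 a2
        refine ⟨RS_m a1 a2 h1, ?_, by omega, by omega⟩
        obtain ⟨-, b2, -⟩ := a2; omega
      · have r1 := RN_rng h0 a1
        have r2 := RN_rng h0 a2
        refine ⟨RN_m h0 a1 a2, ?_, by omega, by omega⟩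
        obtain ⟨b2, -⟩ := a1; omega
    have k1 : D.qJ j a b c (lt (x - 1, y)) = wal (x - 1) y (if j ≤ y then 1 - c else 1 - b) :=
      qJ_R (by omega) hm.2.2.2 (by omega)
    have k2 : D.qJ j a b c (lt (x - 1, y - 1)) =
        wal (x - 1) (y - 1) (if j ≤ y then 1 - c else 1 - b) := by
      rw [qJ_R hm.2.2.1 (by omega) (by omega)]; congr 1; simp only [hm.2.1]
    unfold wk
    simp only
    by_cases h : (x + y) % 2 = 1
    · unfold kt rt
      simp only [if_pos h]
      rw [k1, k2, wal_odd' (by omega), wal_even' (by omega)]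
      split_ifs
      · rw [show (1 : ℂ) - (1 - c) = c by ring]; exact mg_tw _ _
      · rw [show (1 : ℂ) - (1 - b) = b by ring]; exact mg_tw _ _
    · unfold kt rt
      simp only [if_neg h]
      rw [k1, k2, wal_odd' (by omega), wal_even' (by omega)]
      split_ifs
      · rw [show (1 : ℂ) - (1 - c) = c by ring]; exact mg_tw _ _
      · rw [show (1 : ℂ) - (1 - b) = b by ring]; exact mg_tw _ _
  · -- floors
    have key : D.qJ j a b c (lt (x, y)) = wal x y a ∧
        D.qJ j a b c (lt (x - 1, y)) = wal (x - 1) y a := by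
      rcases hck with ⟨a1, a2, a3, a4, a5⟩ | ⟨a1, a2, a3, a4, a5⟩ | ⟨a1, a2, a3, a4, a5⟩
      · have d1 : D.m (y - 1) = D.a y := m_lo' a2
        have d2 := b_le_M (D := D) (y := y) a1
        have d3 := D.ab y a1 (by omega)
        rcases a4 with ⟨a4, a6⟩ | ⟨a4, a6⟩
        · exact ⟨qJ_row h0 h1 (by omega) (by omega) (by omega) (Or.inr (Or.inl ⟨a4, by omega⟩)),
            qJ_row h0 h1 (by omega) (by omega) (by omega) (Or.inr (Or.inl ⟨a4, by omega⟩))⟩
        · exact ⟨qJ_row h0 h1 (by omega) (by omega) (by omega) (Or.inl a4),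
            qJ_row h0 h1 (by omega) (by omega) (by omega) (Or.inl a4)⟩
      · have d1 : D.M (y - 1) = D.b y := M_lo' (by omega)
        have d2 := m_le_a (D := D) (y := y) a1
        have d3 := D.ab y a1 (by omega)
        rcases a4 with ⟨a4, a6⟩ | ⟨a4, a6⟩
        · exact ⟨qJ_row h0 h1 (by omega) (by omega) (by omega) (Or.inr (Or.inl ⟨a4, by omega⟩)),
            qJ_row h0 h1 (by omega) (by omega) (by omega) (Or.inr (Or.inl ⟨a4, by omega⟩))⟩
        · exact ⟨qJ_row h0 h1 (by omega) (by omega) (by omega) (Or.inl a4),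
            qJ_row h0 h1 (by omega) (by omega) (by omega) (Or.inl a4)⟩
      · subst a1
        exact ⟨qJ_row h0 h1 (by omega) (by omega) (by omega) (Or.inl (by omega)),
            qJ_row h0 h1 (by omega) (by omega) (by omega) (Or.inl (by omega))⟩
    unfold wk
    simp only
    by_cases h : (x + y) % 2 = 1
    · unfold kt rt
      simp only [if_pos h]
      rw [key.1, key.2, wal_odd' h, wal_even' (by omega)]
      exact mg_tw' _ _
    · unfold kt rt
      simp only [if_neg h]
      rw [key.1, key.2, wal_odd' (by omega), wal_even' (by omega)]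
      exact mg_tw' _ _
  · -- ceilings
    have key : D.qJ j a b c (lt (x, y - 1)) = wal x (y - 1) a ∧
        D.qJ j a b c (lt (x - 1, y - 1)) = wal (x - 1) (y - 1) a := by
      have dy : y - 1 + 1 = y := by ring
      rcases hck with ⟨a1, a2, a3, a4, a5⟩ | ⟨a1, a2, a3, a4, a5⟩ | ⟨a1, a2, a3, a4, a5⟩
      · have d1 : D.m y = D.a y := m_hi (by omega)
        have d2 := b_le_M' (D := D) (y := y - 1) (by omega)
        have d3 := D.ab y (by omega) (by omega)
        rw [dy] at d2
        rcases a4 with ⟨a4, a6⟩ | ⟨a4, a6⟩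
        · exact ⟨qJ_row h0 h1 (by omega) (by omega) (by omega)
              (Or.inr (Or.inr ⟨by omega, by omega, by rw [dy]; omega⟩)),
            qJ_row h0 h1 (by omega) (by omega) (by omega)
              (Or.inr (Or.inr ⟨by omega, by omega, by rw [dy]; omega⟩))⟩
        · exact ⟨qJ_row h0 h1 (by omega) (by omega) (by omega) (Or.inl (by omega)),
            qJ_row h0 h1 (by omega) (by omega) (by omega) (Or.inl (by omega))⟩
      · have d1 : D.M y = D.b y := M_hi (by omega)
        have d2 := m_le_a' (D := D) (y := y - 1) (by omega)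
        have d3 := D.ab y (by omega) (by omega)
        rw [dy] at d2
        rcases a4 with ⟨a4, a6⟩ | ⟨a4, a6⟩
        · exact ⟨qJ_row h0 h1 (by omega) (by omega) (by omega)
              (Or.inr (Or.inr ⟨by omega, by omega, by rw [dy]; omega⟩)),
            qJ_row h0 h1 (by omega) (by omega) (by omega)
              (Or.inr (Or.inr ⟨by omega, by omega, by rw [dy]; omega⟩))⟩
        · exact ⟨qJ_row h0 h1 (by omega) (by omega) (by omega) (Or.inl (by omega)),
            qJ_row h0 h1 (by omega) (by omega) (by omega) (Or.inl (by omega))⟩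
      · subst a1
        exact ⟨qJ_row h0 h1 (by omega) (by omega) (by omega) (Or.inl (by omega)),
            qJ_row h0 h1 (by omega) (by omega) (by omega) (Or.inl (by omega))⟩
    unfold wk
    simp only
    by_cases h : (x + y) % 2 = 1
    · unfold kt rt
      simp only [if_pos h]
      rw [key.1, key.2, wal_odd' (by omega), wal_even' (by omega)]
      exact mg_tw' _ _
    · unfold kt rt
      simp only [if_neg h]
      rw [key.1, key.2, wal_odd' (by omega), wal_even' (by omega)]
      exact mg_tw' _ _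

end Pool.Agent.H42.Sp
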