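import Pool.Agent.H42.Sp.TieInj

set_option autoImplicit false
open Finset

/-! # The tied forms of the environments of a window

`CPs D j` : all caps of the environment number `j`. For a finite set `P` of caps: `ETp`, `WTp`, `qTp`,
`XTp` : random labels, open labels, weights and the environment in which the two tiles of every cap of `P`
are one tile (`kt k`), `XJ_tied` : the increments are the same at all corners which are not at the points
of `P`. `noroot` : the root corner is not at a cap. `qT_kt` : the weight of a tie is `w (1 - w)` at a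
vertex and `1 - w (1 - w)` at a face, `w` = weight of the line. -/

namespace Pool.Agent.H42.Sp

open Pool.Agent.H75.TwoArm Pool.Agent.Q1 Pool.Agent.H33.Q1
open Pool.Agent.H69.Q1
open Pool.Agent.H46.Sp Pool.Agent.H46.Sp.Win
open Pool.Agent.H13.R45 Pool.Agent.H13.Q1
open Pool.Agent.H74.R45 (exists_lt)

variable {D : Win} {j x y : ℤ}

/-! ### All caps -/

open Classical in
/-- all caps of the environment number `j` -/
noncomputable def CPs (D : Win) (j : ℤ) : Finset Ix :=
  ((univ : Finset Sd) ×ˢ (Icc (D.a (D.yP - 1) - 2) (D.b D.yQ + 2) ×ˢ Icc (-1) D.h)).filter (CP D j)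

theorem mem_CPs (h0 : 0 ≤ j) (h1 : j ≤ D.h) {k : Ix} : k ∈ CPs D j ↔ CP D j k := by
  classical
  unfold CPs
  rw [mem_filter]
  refine ⟨fun h => h.2, fun h => ⟨?_, h⟩⟩
  obtain ⟨s, x, y⟩ := k
  simp only [mem_product, mem_univ, true_and, mem_Icc]
  cases s
  · obtain ⟨a1, a2, a3, a4, a5, a6⟩ := L_data h0 h1 h
    have b1 := m_min (D := D) (y := y) (by omega) a4
    have b2 := M_max (D := D) (y := y) (by omega) a4
    have b3 := m_lt_M (D := D) (y := y) (by omega) a4
    omega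
  · obtain ⟨a1, a2, a3, a4, a5, a6⟩ := R_data h0 h1 h
    have b1 := m_min (D := D) (y := y) (by omega) a4
    have b2 := M_max (D := D) (y := y) (by omega) a4
    have b3 := m_lt_M (D := D) (y := y) (by omega) a4
    omega
  · obtain ⟨a1, a2, a3, a4⟩ := F_data h
    have b1 := m_min (D := D) (y := y) (by omega) a2
    have b2 := M_max (D := D) (y := y) (by omega) a2
    omega
  · obtain ⟨a1, a2, a3, a4⟩ := C_data h
    have b1 := m_min (D := D) (y := y - 1) (by omega) (by omega)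
    have b2 := M_max (D := D) (y := y - 1) (by omega) (by omega)
    omega

/-! ### The root -/

theorem plab_at {g z : ℤ × ℤ} (h : Ag g z) : Tg g (plab z) := by
  obtain ⟨x, y⟩ := g
  obtain ⟨u, v⟩ := z
  have h2 := ag_iff.1 h
  unfold Pool.Agent.H74.R45.he Pool.Agent.H74.R45.ve at h2
  simp only [Prod.mk.injEq] at h2
  unfold Tg plab lt
  simp only
  split_ifs <;> simp only [Prod.mk.injEq] <;> omega

/-- the root corner is not at a cap -/
theorem noroot (O : Out D) (h0 : 0 ≤ j) (h1 : j ≤ D.h) {k : Ix} (hk : CP D j k) : ¬ Ag k.2 O.c0 :=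
  fun h => O.hroot (cap_near h0 h1 hk (plab_at h))

/-! ### The environment -/

/-- random labels of the tied form -/
noncomputable def ETp (D : Win) (j : ℤ) (P : Finset Ix) : Finset (ℤ × ℤ) :=
  D.EJ j \ P.image (fun k => lt (rt k))

/-- removed labels which are open -/
noncomputable def OTp (P : Finset Ix) : Finset (ℤ × ℤ) :=
  (P.filter (fun k => ev k.2 = true)).image (fun k => lt (rt k))

/-- open labels of the tied form -/
noncomputable def WTp (D : Win) (j : ℤ) (P : Finset Ix) (Wo : Finset (ℤ × ℤ)) : Finset (ℤ × ℤ) :=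
  D.WJ j Wo ∪ OTp P

open Classical in
/-- open weights of the tied form -/
noncomputable def qTp (D : Win) (j : ℤ) (P : Finset Ix) (a b c : ℂ) (e : ℤ × ℤ) : ℂ :=
  if h : ∃ k ∈ P, lt (kt k) = e then
    mg (ev h.choose.2) (D.qJ j a b c (lt (kt h.choose))) (D.qJ j a b c (lt (rt h.choose)))
  else D.qJ j a b c e

theorem qTp_kt (h0 : 0 ≤ j) (h1 : j ≤ D.h) {P : Finset Ix} (hP : ∀ k ∈ P, CP D j k) {a b c : ℂ}
    {k : Ix} (hk : k ∈ P) : qTp D j P a b c (lt (kt k)) =
      mg (ev k.2) (D.qJ j a b c (lt (kt k))) (D.qJ j a b c (lt (rt k))) := by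
  classical
  have h : ∃ l ∈ P, lt (kt l) = lt (kt k) := ⟨k, hk, rfl⟩
  unfold qTp
  rw [dif_pos h]
  have h2 := h.choose_spec
  have h3 : h.choose = k := kt_inj h0 h1 (hP _ h2.1) (hP _ hk) (lt_inj h2.2)
  rw [h3]

theorem qTp_other {P : Finset Ix} {a b c : ℂ} {e : ℤ × ℤ} (h : ∀ k ∈ P, lt (kt k) ≠ e) :
    qTp D j P a b c e = D.qJ j a b c e := by
  classical
  unfold qTp
  rw [dif_neg]
  rintro ⟨k, hk, h2⟩
  exact h k hk h2

theorem ETp_sub {P : Finset Ix} : ETp D j P ⊆ D.EJ j := sdiff_subset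

theorem OTp_sub (O : Out D) (h0 : 0 ≤ j) (h1 : j ≤ D.h) {P : Finset Ix}
    (hP : ∀ k ∈ P, CP D j k) : OTp P ⊆ D.EJ j := by
  intro e he
  unfold OTp at he
  obtain ⟨k, hk, rfl⟩ := mem_image.1 he
  exact (cap_CP O h0 h1 (hP k (mem_filter.1 hk).1)).m2

theorem disj_ETWTp (O : Out D) (h0 : 0 ≤ j) (P : Finset Ix) :
    Disjoint (ETp D j P) (WTp D j P O.Wo) := by
  unfold WTp
  rw [disjoint_union_right]
  refine ⟨(disj_EW O h0).mono_left ETp_sub, ?_⟩
  rw [disjoint_left]
  intro e he he'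
  unfold ETp at he
  unfold OTp at he'
  obtain ⟨k, hk, rfl⟩ := mem_image.1 he'
  exact (mem_sdiff.1 he).2 (mem_image_of_mem _ (mem_filter.1 hk).1)

theorem ETWTp_sub (O : Out D) (h0 : 0 ≤ j) (h1 : j ≤ D.h) {P : Finset Ix}
    (hP : ∀ k ∈ P, CP D j k) : ETp D j P ∪ WTp D j P O.Wo ⊆ D.GA ∪ O.Wo := by
  refine Subset.trans ?_ (EW_sub (j := j) O)
  unfold WTp
  refine union_subset (ETp_sub.trans subset_union_left) (union_subset subset_union_right ?_)
  exact (OTp_sub O h0 h1 hP).trans subset_union_left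

/-- **The tied form of the environment number `j`**, the caps of `P` are merged. -/
noncomputable def XTp (O : Out D) (j : ℤ) (h0 : 0 ≤ j) (h1 : j ≤ D.h) (P : Finset Ix)
    (hP : ∀ k ∈ P, CP D j k) : Env :=
  Env.plane (ETp D j P) (WTp D j P O.Wo) O.c0 O.k0 O.g (fun _ he => odd_EJ (ETp_sub he))
    (disj_ETWTp O h0 P) O.hk (fun h => O.hroot (EJ_sub (ETp_sub h)))
    (O.hg.anti (ETWTp_sub O h0 h1 hP)) (fun v hv => O.hlow v (hv.mono (ETWTp_sub O h0 h1 hP)))

variable {O : Out D} {h0 : 0 ≤ j} {h1 : j ≤ D.h} {P : Finset Ix} {hP : ∀ k ∈ P, CP D j k}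
  {a b c : ℂ}

@[simp] theorem XTp_E : (XTp O j h0 h1 P hP).E = ETp D j P := rfl
@[simp] theorem XTp_c0 : (XTp O j h0 h1 P hP).c0 = O.c0 := rfl
@[simp] theorem XTp_k0 : (XTp O j h0 h1 P hP).k0 = O.k0 := rfl
@[simp] theorem XTp_T : (XTp O j h0 h1 P hP).T = 4 := rfl

/-- **The tied form has the same increments** at all corners which are not at the points of `P`. -/
theorem XJ_tied {z : ℤ × ℤ} (hz : ∀ k ∈ P, ¬ Ag k.2 z) :
    (XTp O j h0 h1 P hP).incW (qTp D j P a b c) z = (XJ O j h0).incW (D.qJ j a b c) z := by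
  unfold XTp XJ
  rw [plane_incW, plane_incW]
  unfold WTp OTp ETp
  exact iW_ties P (fun k => ev k.2) (fun k => gp k.2) (fun k => lt (kt k)) (fun k => lt (rt k))
    (fun k hk => cap_CP O h0 h1 (hP k hk)) (disj_EW O h0)
    (fun k hk l hl hne => ⟨fun h => hne (kt_inj h0 h1 (hP k hk) (hP l hl) (lt_inj h)),
      fun h => by
        have e1 := kt_odd k
        have e2 := rt_even l
        rw [lt_inj h] at e1
        omega,
      fun h => hne (rt_inj h0 h1 (hP k hk) (hP l hl) (lt_inj h))⟩)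
    (fun k hk => noroot O h0 h1 (hP k hk)) hz (fun k hk => qTp_kt h0 h1 hP hk)
    (fun e _ hn => qTp_other (fun k hk h => (hn k hk).1 h.symm))

/-- the vertical edges -/
theorem XJ_tied_ve {x y : ℤ} (p1 : ∀ s, (s, (x, y)) ∉ P) (p2 : ∀ s, (s, (x, y + 1)) ∉ P) :
    (XTp O j h0 h1 P hP).incW (qTp D j P a b c) (Pool.Agent.H74.R45.ve (x, y)) =
      (XJ O j h0).incW (D.qJ j a b c) (Pool.Agent.H74.R45.ve (x, y)) := by
  refine XJ_tied fun k hk h => ?_
  obtain ⟨s, g⟩ := k
  rcases ag_ve.1 h with h | h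
  · simp only at h; subst h; exact p1 s hk
  · simp only at h; subst h; exact p2 s hk

/-- the horizontal edges -/
theorem XJ_tied_he {x y : ℤ} (p1 : ∀ s, (s, (x, y)) ∉ P) (p2 : ∀ s, (s, (x + 1, y)) ∉ P) :
    (XTp O j h0 h1 P hP).incW (qTp D j P a b c) (Pool.Agent.H74.R45.he (x, y)) =
      (XJ O j h0).incW (D.qJ j a b c) (Pool.Agent.H74.R45.he (x, y)) := by
  refine XJ_tied fun k hk h => ?_
  obtain ⟨s, g⟩ := k
  rcases ag_he.1 h with h | h
  · simp only at h; subst h; exact p1 s hk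
  · simp only at h; subst h; exact p2 s hk

end Pool.Agent.H42.Sp
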