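import Pool.Agent.H42.Sp.Outs
import Pool.Agent.H13.R45.Grid

set_option autoImplicit false
open Finset

/-! # The tied forms of the environments of a window

A cap is a grid point `g` between two neighbouring straight tiles of the line, with two outside tiles on
the other side, which are open if `g` is a face and closed if `g` is a vertex. Kinds: `L`, `R` left and
right column, `F` floor (line above `g`), `C` ceiling (line below `g`). `CP D j s g` : there is a cap of
the kind `s` at `g` in the environment number `j`. `kt`, `rt` : the two tiles of the line at a cap, `kt`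
the one with `x + y` odd (kept), `rt` the other one (removed). -/

namespace Pool.Agent.H42.Sp

open Pool.Agent.H75.TwoArm Pool.Agent.Q1 Pool.Agent.H33.Q1
open Pool.Agent.H69.Q1
open Pool.Agent.H46.Sp Pool.Agent.H46.Sp.Win
open Pool.Agent.H13.R45 Pool.Agent.H13.Q1
open Pool.Agent.H74.R45 (exists_lt)

/-- kinds of caps -/
inductive Sd
  | L | R | F | C
  deriving DecidableEq, Fintype

/-- index of a cap: kind and grid point -/
abbrev Ix := Sd × (ℤ × ℤ)

/-- the cap points of the environment number `j` -/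
def CP (D : Win) (j : ℤ) : Ix → Prop
  | (.L, (x, y)) => x = D.m y - 1 ∧
      ((D.LS j (y - 1) ∧ D.LS j y) ∨ (D.LN j (y - 1) ∧ D.LN j y)) ∧
      ((x + y) % 2 = 1 ↔ D.cl y = true)
  | (.R, (x, y)) => x = D.M y + 1 ∧
      ((D.RS j (y - 1) ∧ D.RS j y) ∨ (D.RN j (y - 1) ∧ D.RN j y)) ∧
      ((x + y) % 2 = 1 ↔ D.cr y = true)
  | (.F, (x, y)) =>
      (0 ≤ y ∧ y < D.yP ∧ D.m y < x ∧
        ((j ≤ y ∧ x + 1 < D.m (y - 1)) ∨ (y = j - 1 ∧ x < D.m (y - 1))) ∧
        ((x + y) % 2 = 1 ↔ D.cl (y - 1) = true)) ∨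
      (0 ≤ y ∧ y < D.yQ ∧ x < D.M y ∧
        ((j ≤ y ∧ D.M (y - 1) + 1 < x) ∨ (y = j - 1 ∧ D.M (y - 1) < x)) ∧
        ((x + y) % 2 = 1 ↔ D.cr (y - 1) = true)) ∨
      (y = -1 ∧ j = 0 ∧ D.m (-1) < x ∧ x < D.M (-1) ∧ ((x + y) % 2 = 1 ↔ D.cb = true))
  | (.C, (x, y)) =>
      (D.yP ≤ y ∧ y < D.h ∧ D.m (y - 1) < x ∧
        ((y < j ∧ x + 1 < D.m y) ∨ (y = j ∧ x < D.m y)) ∧
        ((x + y) % 2 = 1 ↔ D.cl y = true)) ∨
      (D.yQ < y ∧ y < D.h ∧ x < D.M (y - 1) ∧
        ((y < j ∧ D.M y + 1 < x) ∨ (y = j ∧ D.M y < x)) ∧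
        ((x + y) % 2 = 1 ↔ D.cr y = true)) ∨
      (y = D.h ∧ j = D.h ∧ D.m (D.h - 1) < x ∧ x < D.M (D.h - 1) ∧
        ((x + y) % 2 = 1 ↔ D.ct = true))

/-- the tile which is kept -/
def kt : Ix → ℤ × ℤ
  | (.L, (x, y)) => if (x + y) % 2 = 1 then (x, y) else (x, y - 1)
  | (.R, (x, y)) => if (x + y) % 2 = 1 then (x - 1, y - 1) else (x - 1, y)
  | (.F, (x, y)) => if (x + y) % 2 = 1 then (x, y) else (x - 1, y)
  | (.C, (x, y)) => if (x + y) % 2 = 1 then (x - 1, y - 1) else (x, y - 1)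

/-- the tile which is removed -/
def rt : Ix → ℤ × ℤ
  | (.L, (x, y)) => if (x + y) % 2 = 1 then (x, y - 1) else (x, y)
  | (.R, (x, y)) => if (x + y) % 2 = 1 then (x - 1, y) else (x - 1, y - 1)
  | (.F, (x, y)) => if (x + y) % 2 = 1 then (x - 1, y) else (x, y)
  | (.C, (x, y)) => if (x + y) % 2 = 1 then (x, y - 1) else (x - 1, y - 1)

theorem kt_odd (k : Ix) : ((kt k).1 + (kt k).2) % 2 = 1 := by
  obtain ⟨s, x, y⟩ := k
  cases s <;> (unfold kt; simp only; split_ifs <;> (simp only; omega))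

theorem rt_even (k : Ix) : ((rt k).1 + (rt k).2) % 2 = 0 := by
  obtain ⟨s, x, y⟩ := k
  cases s <;> (unfold rt; simp only; split_ifs <;> (simp only; omega))

theorem kt_Tg (k : Ix) : Tg k.2 (lt (kt k)) := by
  obtain ⟨s, x, y⟩ := k
  unfold Tg
  cases s <;> (unfold kt; simp only; split_ifs <;> simp)

theorem rt_Tg (k : Ix) : Tg k.2 (lt (rt k)) := by
  obtain ⟨s, x, y⟩ := k
  unfold Tg
  cases s <;> (unfold rt; simp only; split_ifs <;> simp)

variable {D : Win} {j x y : ℤ}

/-- a cap from its four tiles -/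
theorem cap_of {E W : Finset (ℤ × ℤ)} {g t1 t2 u1 u2 : ℤ × ℤ} {c : Bool} (o1 : Tg g (lt t1))
    (o2 : Tg g (lt t2)) (hne : t1 ≠ t2) (m1 : lt t1 ∈ E) (m2 : lt t2 ∈ E)
    (hall : ∀ e, Tg g e → e = lt t1 ∨ e = lt t2 ∨ e = lt u1 ∨ e = lt u2)
    (n1 : lt u1 ∉ E) (w1 : lt u1 ∈ W ↔ c = true) (n2 : lt u2 ∉ E) (w2 : lt u2 ∈ W ↔ c = true)
    (hc : (g.1 + g.2) % 2 = 1 ↔ c = true) : Cap E W (ev g) (gp g) (lt t1) (lt t2) := by
  refine cap_grid o1 o2 (fun h => hne (lt_inj h)) m1 m2 (fun hp e he a1 a2 => ?_)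
    (fun hp e he a1 a2 => ?_)
  · have hc' : ¬ c = true := fun h => by have := hc.2 h; omega
    rcases hall e he with h | h | h | h
    · exact absurd h a1
    · exact absurd h a2
    · rw [h, mem_union]; rintro (h3 | h3)
      · exact n1 h3
      · exact hc' (w1.1 h3)
    · rw [h, mem_union]; rintro (h3 | h3)
      · exact n2 h3
      · exact hc' (w2.1 h3)
  · have hc' : c = true := hc.1 hp
    rcases hall e he with h | h | h | h
    · exact absurd h a1
    · exact absurd h a2
    · rw [h]; exact w1.2 hc'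
    · rw [h]; exact w2.2 hc'

/-- a cap from two random tiles and two outside tiles -/
theorem cap_ix (O : Out D) {k : Ix} {u1 u2 : ℤ × ℤ} {c : Bool} (m1 : D.InE j (kt k).1 (kt k).2)
    (m2 : D.InE j (rt k).1 (rt k).2)
    (hall : ∀ e, Tg k.2 e → e = lt (kt k) ∨ e = lt (rt k) ∨ e = lt u1 ∨ e = lt u2)
    (n1 : OutT D j u1.1 u1.2 c) (n2 : OutT D j u2.1 u2.2 c)
    (hc : (k.2.1 + k.2.2) % 2 = 1 ↔ c = true) :
    Cap (D.EJ j) (D.WJ j O.Wo) (ev k.2) (gp k.2) (lt (kt k)) (lt (rt k)) := by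
  refine cap_of (kt_Tg k) (rt_Tg k) (fun h => ?_) (mem_EJ.2 m1) (mem_EJ.2 m2) hall n1.not_mem
    (n1.mem O) n2.not_mem (n2.mem O) hc
  have h1 := kt_odd k
  have h2 := rt_even k
  rw [h] at h1
  omega

/-- straight tile of the line in a row -/
theorem InE_row (h0 : -1 ≤ y) (h1 : y < D.h) (h2 : D.m y ≤ x) (h3 : x < D.M y) : D.InE j x y :=
  Or.inl ⟨h0, h1, h2, h3⟩

theorem LS_rng (hj : 0 ≤ j) (h : D.LS j y) : 0 ≤ y ∧ y < D.h := by
  have := D.P1
  obtain ⟨h1, h2, -⟩ := h
  omega

theorem LN_rng (hj : j ≤ D.h) (h : D.LN j y) : 1 ≤ y ∧ y + 1 < D.h := by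
  have := D.P0
  obtain ⟨h1, h2, -⟩ := h
  omega

theorem RS_rng (hj : j ≤ D.h) (h : D.RS j y) : -1 ≤ y ∧ y + 1 < D.h := by
  have := D.Q0
  obtain ⟨h1, h2, -⟩ := h
  omega

theorem RN_rng (hj : 0 ≤ j) (h : D.RN j y) : 0 ≤ y ∧ y + 1 < D.h := by
  have := D.Q1
  obtain ⟨h1, h2, -⟩ := h
  omega

/-- the tiles at a cap of the left column -/
theorem tiles_L (h0 : 0 ≤ j) (h1 : j ≤ D.h) (hk : CP D j (.L, (x, y))) :
    D.InE j x y ∧ D.InE j x (y - 1) ∧ OutT D j (x - 1) y (D.cl y) ∧
      OutT D j (x - 1) (y - 1) (D.cl y) ∧ ((x + y) % 2 = 1 ↔ D.cl y = true) := by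
  have hP0 := D.P0
  have hP1 := D.P1
  obtain ⟨hx, hS, hc⟩ := hk
  have key : D.m (y - 1) = D.m y ∧ -1 ≤ y - 1 ∧ y < D.h ∧
      (D.LS j (y - 1) ∨ D.LN j (y - 1)) ∧ (D.LS j y ∨ D.LN j y) := by
    rcases hS with ⟨a1, a2⟩ | ⟨a1, a2⟩
    · have r1 := LS_rng h0 a1
      have r2 := LS_rng h0 a2
      exact ⟨LS_m h0 a1 a2, by omega, by omega, Or.inl a1, Or.inl a2⟩
    · have r1 := LN_rng h1 a1
      have r2 := LN_rng h1 a2
      exact ⟨LN_m a1 a2 h1, by omega, by omega, Or.inr a1, Or.inr a2⟩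
  obtain ⟨hm, r1, r2, s1, s2⟩ := key
  have c1 := cl_eq (D := D) (y := y) (by omega) r2 hm
  have c2 := m_min (D := D) (y := y) (by omega) r2
  refine ⟨Or.inr ⟨by omega, r2, Or.inl ⟨hx, s2⟩⟩, Or.inr ⟨r1, by omega, Or.inl ⟨by omega, s1⟩⟩,
    outL (by omega) r2 (by omega) (by omega), ?_, hc⟩
  rw [← c1]; exact outL r1 (by omega) (by omega) (by omega)

/-- the tiles at a cap of the right column -/
theorem tiles_R (h0 : 0 ≤ j) (h1 : j ≤ D.h) (hk : CP D j (.R, (x, y))) :
    D.InE j (x - 1) y ∧ D.InE j (x - 1) (y - 1) ∧ OutT D j x y (D.cr y) ∧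
      OutT D j x (y - 1) (D.cr y) ∧ ((x + y) % 2 = 1 ↔ D.cr y = true) := by
  have hQ0 := D.Q0
  have hQ1 := D.Q1
  obtain ⟨hx, hS, hc⟩ := hk
  have key : D.M (y - 1) = D.M y ∧ -1 ≤ y - 1 ∧ y < D.h ∧
      (D.RS j (y - 1) ∨ D.RN j (y - 1)) ∧ (D.RS j y ∨ D.RN j y) := by
    rcases hS with ⟨a1, a2⟩ | ⟨a1, a2⟩
    · have r1 := RS_rng h1 a1
      have r2 := RS_rng h1 a2
      exact ⟨RS_m a1 a2 h1, by omega, by omega, Or.inl a1, Or.inl a2⟩
    · have r1 := RN_rng h0 a1
      have r2 := RN_rng h0 a2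
      exact ⟨RN_m h0 a1 a2, by omega, by omega, Or.inr a1, Or.inr a2⟩
  obtain ⟨hm, r1, r2, s1, s2⟩ := key
  have c1 := cr_eq (D := D) (y := y) (by omega) r2 hm
  have c2 := M_max (D := D) (y := y) (by omega) r2
  refine ⟨Or.inr ⟨by omega, r2, Or.inr ⟨by omega, s2⟩⟩, Or.inr ⟨r1, by omega, Or.inr ⟨by omega, s1⟩⟩,
    outR (by omega) r2 (by omega) (by omega), ?_, hc⟩
  rw [← c1]; exact outR r1 (by omega) (by omega) (by omega)

/-- the tiles at a floor cap -/
theorem tiles_F (h0 : 0 ≤ j) (hk : CP D j (.F, (x, y))) :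
    ∃ c : Bool, D.InE j (x - 1) y ∧ D.InE j x y ∧ OutT D j (x - 1) (y - 1) c ∧
      OutT D j x (y - 1) c ∧ ((x + y) % 2 = 1 ↔ c = true) := by
  have hP0 := D.P0
  have hP1 := D.P1
  have hQ0 := D.Q0
  have hQ1 := D.Q1
  rcases hk with ⟨a1, a2, a3, a4, a5⟩ | ⟨a1, a2, a3, a4, a5⟩ | ⟨a1, a2, a3, a4, a5⟩
  · have b1 := m_lt_M (D := D) (y := y) (by omega) (by omega)
    have b2 := m_lt_M (D := D) (y := y - 1) (by omega) (by omega)
    have b3 := m_min (D := D) (y := y) (by omega) (by omega)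
    have b4 : D.m y + 0 ≤ D.m (y - 1) := by omega
    have b5 : x < D.M y := by
      have e1 : D.m (y - 1) = D.a y := m_lo' a2
      have e2 := b_le_M (D := D) (y := y) a1
      have e3 := D.ab y a1 (by omega)
      omega
    refine ⟨D.cl (y - 1), InE_row (by omega) (by omega) (by omega) (by omega),
      InE_row (by omega) (by omega) (by omega) b5, ?_, ?_, a5⟩
    · exact outL (by omega) (by omega) (by omega) (by omega)
    · rcases a4 with ⟨a4, a6⟩ | ⟨a4, a6⟩
      · exact outL (by omega) (by omega) (by omega) (by omega)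
      · by_cases hx : x + 2 ≤ D.m (y - 1)
        · exact outL (by omega) (by omega) hx (by omega)
        · refine outLc (by omega) (by omega) (by omega) (Or.inr ⟨by omega, by omega⟩)
  · have b1 := m_lt_M (D := D) (y := y) (by omega) (by omega)
    have b2 := m_lt_M (D := D) (y := y - 1) (by omega) (by omega)
    have b3 := M_max (D := D) (y := y) (by omega) (by omega)
    have b5 : D.m y ≤ x - 1 := by
      have e1 : D.M (y - 1) = D.b y := M_lo' a2.le
      have e2 := m_le_a (D := D) (y := y) a1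
      have e3 := D.ab y a1 (by omega)
      omega
    refine ⟨D.cr (y - 1), InE_row (by omega) (by omega) b5 (by omega),
      InE_row (by omega) (by omega) (by omega) a3, ?_, ?_, a5⟩
    · rcases a4 with ⟨a4, a6⟩ | ⟨a4, a6⟩
      · exact outR (by omega) (by omega) (by omega) (by omega)
      · by_cases hx : D.M (y - 1) + 1 ≤ x - 1
        · exact outR (by omega) (by omega) hx (by omega)
        · refine outRc h0 (by omega) (by omega) (by omega) (Or.inr ⟨by omega, by omega⟩)
    · exact outR (by omega) (by omega) (by omega) (by omega)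
  · subst a1; subst a2
    have b1 := m_min (D := D) (y := -1) (by omega) (by omega)
    have b2 := M_max (D := D) (y := -1) (by omega) (by omega)
    exact ⟨D.cb, InE_row le_rfl (by omega) (by omega) (by omega),
      InE_row le_rfl (by omega) (by omega) (by omega), outB (by omega) (by omega),
      outB (by omega) (by omega), a5⟩

/-- the tiles at a ceiling cap -/
theorem tiles_C (h0 : 0 ≤ j) (hk : CP D j (.C, (x, y))) :
    ∃ c : Bool, D.InE j (x - 1) (y - 1) ∧ D.InE j x (y - 1) ∧ OutT D j (x - 1) y c ∧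
      OutT D j x y c ∧ ((x + y) % 2 = 1 ↔ c = true) := by
  have hP0 := D.P0
  have hP1 := D.P1
  have hQ0 := D.Q0
  have hQ1 := D.Q1
  rcases hk with ⟨a1, a2, a3, a4, a5⟩ | ⟨a1, a2, a3, a4, a5⟩ | ⟨a1, a2, a3, a4, a5⟩
  · have b1 := m_lt_M (D := D) (y := y) (by omega) (by omega)
    have b2 := m_lt_M (D := D) (y := y - 1) (by omega) (by omega)
    have b3 := m_min (D := D) (y := y - 1) (by omega) (by omega)
    have b5 : x < D.M (y - 1) := by
      have e1 : D.m y = D.a y := m_hi (by omega)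
      have e2 := b_le_M' (D := D) (y := y - 1) (by omega)
      have e3 := D.ab y (by omega) (by omega)
      rw [show y - 1 + 1 = y by ring] at e2
      omega
    refine ⟨D.cl y, InE_row (by omega) (by omega) (by omega) (by omega),
      InE_row (by omega) (by omega) (by omega) b5, ?_, ?_, a5⟩
    · exact outL (by omega) (by omega) (by omega) (by omega)
    · rcases a4 with ⟨a4, a6⟩ | ⟨a4, a6⟩
      · exact outL (by omega) (by omega) (by omega) (by omega)
      · by_cases hx : x + 2 ≤ D.m y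
        · exact outL (by omega) (by omega) hx (by omega)
        · refine outLc (by omega) (by omega) (by omega) (Or.inl ⟨by omega, by omega⟩)
  · have b1 := m_lt_M (D := D) (y := y) (by omega) (by omega)
    have b2 := m_lt_M (D := D) (y := y - 1) (by omega) (by omega)
    have b3 := M_max (D := D) (y := y - 1) (by omega) (by omega)
    have b5 : D.m (y - 1) ≤ x - 1 := by
      have e1 : D.M y = D.b y := M_hi (by omega)
      have e2 := m_le_a' (D := D) (y := y - 1) (by omega)
      have e3 := D.ab y (by omega) (by omega)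
      rw [show y - 1 + 1 = y by ring] at e2
      omega
    refine ⟨D.cr y, InE_row (by omega) (by omega) b5 (by omega),
      InE_row (by omega) (by omega) (by omega) a3, ?_, ?_, a5⟩
    · rcases a4 with ⟨a4, a6⟩ | ⟨a4, a6⟩
      · exact outR (by omega) (by omega) (by omega) (by omega)
      · by_cases hx : D.M y + 1 ≤ x - 1
        · exact outR (by omega) (by omega) hx (by omega)
        · refine outRc h0 (by omega) (by omega) (by omega) (Or.inl ⟨by omega, by omega⟩)
    · exact outR (by omega) (by omega) (by omega) (by omega)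
  · subst a1
    have b1 := m_min (D := D) (y := D.h - 1) (by omega) (by omega)
    have b2 := M_max (D := D) (y := D.h - 1) (by omega) (by omega)
    exact ⟨D.ct, InE_row (by omega) (by omega) (by omega) (by omega),
      InE_row (by omega) (by omega) (by omega) (by omega), outC (by omega) (by omega),
      outC (by omega) (by omega), a5⟩

/-- **The caps.** -/
theorem cap_CP (O : Out D) (h0 : 0 ≤ j) (h1 : j ≤ D.h) {k : Ix} (hk : CP D j k) :
    Cap (D.EJ j) (D.WJ j O.Wo) (ev k.2) (gp k.2) (lt (kt k)) (lt (rt k)) := by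
  obtain ⟨s, x, y⟩ := k
  cases s
  · obtain ⟨i1, i2, o1, o2, hc⟩ := tiles_L h0 h1 hk
    refine cap_ix O (u1 := (x - 1, y)) (u2 := (x - 1, y - 1)) (c := D.cl y) ?_ ?_ ?_ o1 o2 hc
    · unfold kt; simp only; split_ifs
      · exact i1
      · exact i2
    · unfold rt; simp only; split_ifs
      · exact i2
      · exact i1
    · intro e he
      unfold Tg at he
      simp only at he
      unfold kt rt
      simp only
      split_ifs <;> rcases he with he | he | he | he <;> rw [he] <;> simp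
  · obtain ⟨i1, i2, o1, o2, hc⟩ := tiles_R h0 h1 hk
    refine cap_ix O (u1 := (x, y)) (u2 := (x, y - 1)) (c := D.cr y) ?_ ?_ ?_ o1 o2 hc
    · unfold kt; simp only; split_ifs
      · exact i2
      · exact i1
    · unfold rt; simp only; split_ifs
      · exact i1
      · exact i2
    · intro e he
      unfold Tg at he
      simp only at he
      unfold kt rt
      simp only
      split_ifs <;> rcases he with he | he | he | he <;> rw [he] <;> simp
  · obtain ⟨c, i1, i2, o1, o2, hc⟩ := tiles_F h0 hk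
    refine cap_ix O (u1 := (x - 1, y - 1)) (u2 := (x, y - 1)) (c := c) ?_ ?_ ?_ o1 o2 hc
    · unfold kt; simp only; split_ifs
      · exact i2
      · exact i1
    · unfold rt; simp only; split_ifs
      · exact i1
      · exact i2
    · intro e he
      unfold Tg at he
      simp only at he
      unfold kt rt
      simp only
      split_ifs <;> rcases he with he | he | he | he <;> rw [he] <;> simp
  · obtain ⟨c, i1, i2, o1, o2, hc⟩ := tiles_C h0 hk
    refine cap_ix O (u1 := (x - 1, y)) (u2 := (x, y)) (c := c) ?_ ?_ ?_ o1 o2 hc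
    · unfold kt; simp only; split_ifs
      · exact i1
      · exact i2
    · unfold rt; simp only; split_ifs
      · exact i2
      · exact i1
    · intro e he
      unfold Tg at he
      simp only at he
      unfold kt rt
      simp only
      split_ifs <;> rcases he with he | he | he | he <;> rw [he] <;> simp

/-- the four tiles at a cap are near the window -/
theorem cap_near (h0 : 0 ≤ j) (h1 : j ≤ D.h) {k : Ix} (hk : CP D j k) {e : ℤ × ℤ}
    (he : Tg k.2 e) : e ∈ D.GA := by
  have kE : ∀ {u v : ℤ}, D.InE j u v → lt (u, v) ∈ D.GA := fun h => mem_GA.2 (z_of h.z)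
  obtain ⟨s, x, y⟩ := k
  unfold Tg at he
  simp only at he
  cases s
  · obtain ⟨i1, i2, o1, o2, -⟩ := tiles_L h0 h1 hk
    rcases he with he | he | he | he <;> rw [he]
    · exact kE i1
    · exact mem_GA.2 o1.2.1
    · exact kE i2
    · exact mem_GA.2 o2.2.1
  · obtain ⟨i1, i2, o1, o2, -⟩ := tiles_R h0 h1 hk
    rcases he with he | he | he | he <;> rw [he]
    · exact mem_GA.2 o1.2.1
    · exact kE i1
    · exact mem_GA.2 o2.2.1
    · exact kE i2
  · obtain ⟨c, i1, i2, o1, o2, -⟩ := tiles_F h0 hk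
    rcases he with he | he | he | he <;> rw [he]
    · exact kE i2
    · exact kE i1
    · exact mem_GA.2 o2.2.1
    · exact mem_GA.2 o1.2.1
  · obtain ⟨c, i1, i2, o1, o2, -⟩ := tiles_C h0 hk
    rcases he with he | he | he | he <;> rw [he]
    · exact mem_GA.2 o2.2.1
    · exact mem_GA.2 o1.2.1
    · exact kE i2
    · exact kE i1

end Pool.Agent.H42.Sp
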