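import Pool.Agent.H46.Sp.Def

set_option autoImplicit false
open Finset

/-! # The tiles around a window

`OutT D j x y c` : the tile `(x, y)` is not random in the environment number `j`, and it is open iff
`c = true`, for every choice of the far labels. `outL`, `outR` : tiles on the left and on the right of
the two columns, `outLc`, `outRc` : tiles of the columns where the line is not, `outB`, `outC` : tiles
below and above. `LS_m`, `LN_m`, `RS_m`, `RN_m` : the column is straight between two neighbouring tiles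
of the same kind. -/

namespace Pool.Agent.H42.Sp

open Pool.Agent.H75.TwoArm Pool.Agent.Q1 Pool.Agent.H33.Q1
open Pool.Agent.H75.Four Pool.Agent.H69.Q1
open Pool.Agent.H46.Sp Pool.Agent.H46.Sp.Win
open Pool.Agent.H74.R45 (exists_lt)

variable {D : Win} {j x y : ℤ} {c : Bool}

/-- a tile which is not random and is open iff `c = true` -/
def OutT (D : Win) (j x y : ℤ) (c : Bool) : Prop :=
  ¬ D.InE j x y ∧ D.InZ x y ∧ ((D.InC j x y ∨ D.InX x y) ↔ c = true)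

theorem OutT.not_mem (h : OutT D j x y c) : lt (x, y) ∉ D.EJ j := by
  rw [mem_EJ]; exact h.1

theorem OutT.mem (h : OutT D j x y c) (O : Out D) : lt (x, y) ∈ D.WJ j O.Wo ↔ c = true := by
  unfold WJ
  rw [mem_union, Win.mem_WR, ← h.2.2]
  refine ⟨fun h2 => ?_, Or.inl⟩
  rcases h2 with h2 | h2
  · exact h2
  · exact absurd h.2.1 (O.far _ _ h2)

/-! ### Values of `m` and `M` -/

theorem m_lo (h : y + 1 < D.yP) : D.m y = D.a (y + 1) := by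
  unfold m mm; rw [if_pos h]

theorem m_hi (h : D.yP ≤ y + 1) : D.m y = D.a y := by
  unfold m mm; rw [if_neg (by omega)]

theorem M_lo (h : y < D.yQ) : D.M y = D.b (y + 1) := by
  unfold Win.M Pool.Agent.H46.Sp.MM; rw [if_pos h]

theorem M_hi (h : D.yQ ≤ y) : D.M y = D.b y := by
  unfold Win.M Pool.Agent.H46.Sp.MM; rw [if_neg (by omega)]

theorem m_lo' (h : y < D.yP) : D.m (y - 1) = D.a y := by
  rw [m_lo (by omega)]; congr 1; ring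

theorem M_lo' (h : y ≤ D.yQ) : D.M (y - 1) = D.b y := by
  rw [M_lo (by omega)]; congr 1; ring

theorem LS_m (hj : 0 ≤ j) (h1 : D.LS j (y - 1)) (h2 : D.LS j y) : D.m (y - 1) = D.m y := by
  obtain ⟨-, a2, a3⟩ := h2
  obtain ⟨b1, -, -⟩ := h1
  rw [m_lo' a2]
  by_cases h : y + 1 < D.yP
  · rw [m_lo h]
    have := D.aL y (by omega) h
    omega
  · rw [m_hi (by omega)]

theorem LN_m (h1 : D.LN j (y - 1)) (h2 : D.LN j y) (hj : j ≤ D.h) : D.m (y - 1) = D.m y := by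
  obtain ⟨a1, a2, -⟩ := h2
  obtain ⟨b1, b2, b3⟩ := h1
  rw [m_hi (by omega), m_hi (by omega)]
  have := D.aU (y - 1) b1 (by omega)
  rw [show y - 1 + 1 = y by ring] at this b3
  omega

theorem RS_m (h1 : D.RS j (y - 1)) (h2 : D.RS j y) (hj : j ≤ D.h) : D.M (y - 1) = D.M y := by
  obtain ⟨a1, a2, a3⟩ := h2
  obtain ⟨b1, b2, b3⟩ := h1
  rw [show y - 1 + 1 = y by ring] at b1 b3
  rw [M_hi b1]
  by_cases h : D.yQ ≤ y - 1
  · rw [M_hi h]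
    have := D.bU (y - 1) h (by omega)
    rw [show y - 1 + 1 = y by ring] at this
    omega
  · exact M_lo' (by omega)

theorem RN_m (hj : 0 ≤ j) (h1 : D.RN j (y - 1)) (h2 : D.RN j y) : D.M (y - 1) = D.M y := by
  obtain ⟨a1, a2, a3⟩ := h2
  obtain ⟨b1, b2, b3⟩ := h1
  rw [M_lo' (by omega), M_lo a2]
  by_cases h : y + 1 < D.yQ
  · have := D.bL y (by omega) h
    omega
  · have h3 := D.bQ (by omega)
    have h4 : y + 1 = D.yQ := by omega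
    rw [← h4, show y + 1 - 1 = y by ring] at h3
    omega

theorem cl_eq (h0 : 0 ≤ y) (h1 : y < D.h) (h : D.m (y - 1) = D.m y) : D.cl (y - 1) = D.cl y := by
  have := D.scl (y - 1) (by omega) (by omega)
  rw [show y - 1 + 1 = y by ring] at this
  exact this h

theorem cr_eq (h0 : 0 ≤ y) (h1 : y < D.h) (h : D.M (y - 1) = D.M y) : D.cr (y - 1) = D.cr y := by
  have := D.scr (y - 1) (by omega) (by omega)
  rw [show y - 1 + 1 = y by ring] at this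
  exact this h

/-! ### The tiles of the outside -/

theorem outL (h0 : -1 ≤ y) (h1 : y < D.h) (h2 : x + 2 ≤ D.m y)
    (h3 : D.a (D.yP - 1) ≤ x + 2) : OutT D j x y (D.cl y) := by
  have k1 := m_lt_M h0 h1
  have k2 := M_max h0 h1
  have hz : D.InZ x y := ⟨h3, by omega, by omega, by omega⟩
  refine ⟨?_, hz, ⟨?_, fun h => Or.inr ⟨hz, Or.inl ⟨h0, h1, h2, h⟩⟩⟩⟩
  · rintro (⟨-, -, h4, -⟩ | ⟨-, -, ⟨h4, -⟩ | ⟨h4, -⟩⟩) <;> omega
  · rintro (⟨-, -, ⟨h4, -⟩ | ⟨h4, -⟩⟩ | ⟨-, ⟨-, -, -, h4⟩ | ⟨-, -, h4, -⟩ | ⟨h4, -⟩ | ⟨h4, -⟩⟩)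
    · omega
    · omega
    · exact h4
    · omega
    · omega
    · omega

theorem outLc (h0 : -1 ≤ y) (h1 : y < D.h) (h2 : x = D.m y - 1) (h3 : D.LO j y) :
    OutT D j x y (D.cl y) := by
  have k1 := m_lt_M h0 h1
  have kl := col_l (D := D) (j := j) (y := y)
  refine ⟨?_, z_of ⟨h0, h1, by omega, by omega⟩, ⟨?_, fun h => Or.inl ?_⟩⟩
  · rintro (⟨-, -, h4, -⟩ | ⟨-, -, ⟨h4, h5⟩ | ⟨h4, -⟩⟩)
    · omega
    · tauto
    · omega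
  · rintro (⟨-, -, ⟨h4, h5⟩ | ⟨h4, -⟩⟩ | ⟨-, ⟨-, -, h4, -⟩ | ⟨-, -, h4, -⟩ | ⟨h4, -⟩ | ⟨h4, -⟩⟩)
    · tauto
    · omega
    · omega
    · omega
    · omega
    · omega
  · exact ⟨h0, h1, Or.inl ⟨h2, Or.inr (Or.inr ⟨h3, h⟩)⟩⟩

theorem outR (h0 : -1 ≤ y) (h1 : y < D.h) (h2 : D.M y + 1 ≤ x)
    (h3 : x ≤ D.b D.yQ + 1) : OutT D j x y (D.cr y) := by
  have k1 := m_lt_M h0 h1
  have k2 := m_min h0 h1
  have hz : D.InZ x y := ⟨by omega, h3, by omega, by omega⟩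
  refine ⟨?_, hz, ⟨?_, fun h => Or.inr ⟨hz, Or.inr (Or.inl ⟨h0, h1, h2, h⟩)⟩⟩⟩
  · rintro (⟨-, -, h4, h5⟩ | ⟨-, -, ⟨h4, -⟩ | ⟨h4, -⟩⟩) <;> omega
  · rintro (⟨-, -, ⟨h4, -⟩ | ⟨h4, -⟩⟩ | ⟨-, ⟨-, -, h4, -⟩ | ⟨-, -, -, h4⟩ | ⟨h4, -⟩ | ⟨h4, -⟩⟩)
    · omega
    · omega
    · omega
    · exact h4
    · omega
    · omega

theorem outRc (hj : 0 ≤ j) (h0 : -1 ≤ y) (h1 : y < D.h) (h2 : x = D.M y) (h3 : D.RO j y) :
    OutT D j x y (D.cr y) := by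
  have k1 := m_lt_M h0 h1
  have kl := col_r (D := D) (y := y) hj
  refine ⟨?_, z_of ⟨h0, h1, by omega, by omega⟩, ⟨?_, fun h => Or.inl ?_⟩⟩
  · rintro (⟨-, -, -, h4⟩ | ⟨-, -, ⟨h4, -⟩ | ⟨h4, h5⟩⟩)
    · omega
    · omega
    · tauto
  · rintro (⟨-, -, ⟨h4, -⟩ | ⟨h4, h5⟩⟩ | ⟨-, ⟨-, -, h4, -⟩ | ⟨-, -, h4, -⟩ | ⟨h4, -⟩ | ⟨h4, -⟩⟩)
    · omega
    · tauto
    · omega
    · omega
    · omega
    · omega
  · exact ⟨h0, h1, Or.inr ⟨h2, Or.inr (Or.inr ⟨h3, h⟩)⟩⟩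

theorem outB (h2 : D.a (D.yP - 1) ≤ x + 2) (h3 : x ≤ D.b D.yQ + 1) : OutT D j x (-2) D.cb := by
  have hh := D.hh
  have hz : D.InZ x (-2) := ⟨h2, h3, le_rfl, by omega⟩
  refine ⟨?_, hz, ⟨?_, fun h => Or.inr ⟨hz, Or.inr (Or.inr (Or.inl ⟨rfl, h⟩))⟩⟩⟩
  · rintro (⟨h4, -⟩ | ⟨h4, -⟩) <;> omega
  · rintro (⟨h4, -⟩ | ⟨-, ⟨h4, -⟩ | ⟨h4, -⟩ | ⟨-, h4⟩ | ⟨h4, -⟩⟩)
    · omega
    · omega
    · omega
    · exact h4
    · omega

theorem outC (h2 : D.a (D.yP - 1) ≤ x + 2) (h3 : x ≤ D.b D.yQ + 1) : OutT D j x D.h D.ct := by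
  have hh := D.hh
  have hz : D.InZ x D.h := ⟨h2, h3, by omega, le_rfl⟩
  refine ⟨?_, hz, ⟨?_, fun h => Or.inr ⟨hz, Or.inr (Or.inr (Or.inr ⟨rfl, h⟩))⟩⟩⟩
  · rintro (⟨-, h4, -⟩ | ⟨-, h4, -⟩) <;> omega
  · rintro (⟨-, h4, -⟩ | ⟨-, ⟨-, h4, -⟩ | ⟨-, h4, -⟩ | ⟨h4, -⟩ | ⟨-, h4⟩⟩)
    · omega
    · omega
    · omega
    · omega
    · exact h4

end Pool.Agent.H42.Sp
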