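import Pool.Agent.H42.Sp.Tie

set_option autoImplicit false
open Finset

/-! # Different caps have different tiles

`kt_inj`, `rt_inj` : the kept (removed) tiles of different caps are different. `L_data`, `R_data`,
`F_data`, `C_data` : the data of a cap. -/

namespace Pool.Agent.H42.Sp

open Pool.Agent.H75.TwoArm Pool.Agent.Q1 Pool.Agent.H33.Q1
open Pool.Agent.H69.Q1
open Pool.Agent.H46.Sp Pool.Agent.H46.Sp.Win
open Pool.Agent.H13.R45 Pool.Agent.H13.Q1
open Pool.Agent.H74.R45 (exists_lt)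

variable {D : Win} {j x y : ℤ}

/-- the region of the tiles of a cap -/
def Rg (D : Win) : Sd → ℤ × ℤ → Prop
  | .L, t => t.1 = D.m t.2 - 1
  | .R, t => t.1 = D.M t.2
  | .F, t => D.m t.2 ≤ t.1 ∧ t.1 < D.M t.2
  | .C, t => D.m t.2 ≤ t.1 ∧ t.1 < D.M t.2

theorem L_data (h0 : 0 ≤ j) (h1 : j ≤ D.h) (hk : CP D j (.L, (x, y))) :
    x = D.m y - 1 ∧ D.m (y - 1) = D.m y ∧ 0 ≤ y ∧ y < D.h ∧ D.cl (y - 1) = D.cl y ∧
      ((x + y) % 2 = 1 ↔ D.cl y = true) := by
  obtain ⟨hx, hS, hc⟩ := hk
  rcases hS with ⟨a1, a2⟩ | ⟨a1, a2⟩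
  · have r1 := LS_rng h0 a1
    have r2 := LS_rng h0 a2
    have hm := LS_m h0 a1 a2
    exact ⟨hx, hm, by omega, by omega, cl_eq (by omega) (by omega) hm, hc⟩
  · have r1 := LN_rng h1 a1
    have r2 := LN_rng h1 a2
    have hm := LN_m a1 a2 h1
    exact ⟨hx, hm, by omega, by omega, cl_eq (by omega) (by omega) hm, hc⟩

theorem R_data (h0 : 0 ≤ j) (h1 : j ≤ D.h) (hk : CP D j (.R, (x, y))) :
    x = D.M y + 1 ∧ D.M (y - 1) = D.M y ∧ 0 ≤ y ∧ y < D.h ∧ D.cr (y - 1) = D.cr y ∧
      ((x + y) % 2 = 1 ↔ D.cr y = true) := by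
  obtain ⟨hx, hS, hc⟩ := hk
  rcases hS with ⟨a1, a2⟩ | ⟨a1, a2⟩
  · have r1 := RS_rng h1 a1
    have r2 := RS_rng h1 a2
    have hm := RS_m a1 a2 h1
    exact ⟨hx, hm, by omega, by omega, cr_eq (by omega) (by omega) hm, hc⟩
  · have r1 := RN_rng h0 a1
    have r2 := RN_rng h0 a2
    have hm := RN_m h0 a1 a2
    exact ⟨hx, hm, by omega, by omega, cr_eq (by omega) (by omega) hm, hc⟩

/-- floor caps: the tiles are in the row `y` -/
theorem F_data (hk : CP D j (.F, (x, y))) : -1 ≤ y ∧ y < D.h ∧ D.m y < x ∧ x < D.M y := by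
  have hP0 := D.P0
  have hP1 := D.P1
  have hQ0 := D.Q0
  have hQ1 := D.Q1
  have hh := D.hh
  rcases hk with ⟨a1, a2, a3, a4, a5⟩ | ⟨a1, a2, a3, a4, a5⟩ | ⟨a1, a2, a3, a4, a5⟩
  · have e1 : D.m (y - 1) = D.a y := m_lo' a2
    have e2 := b_le_M (D := D) (y := y) a1
    have e3 := D.ab y a1 (by omega)
    omega
  · have e1 : D.M (y - 1) = D.b y := M_lo' a2.le
    have e2 := m_le_a (D := D) (y := y) a1
    have e3 := D.ab y a1 (by omega)
    omega
  · subst a1
    exact ⟨le_rfl, by omega, a3, a4⟩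

/-- ceiling caps: the tiles are in the row `y - 1` -/
theorem C_data (hk : CP D j (.C, (x, y))) : 0 ≤ y ∧ y ≤ D.h ∧ D.m (y - 1) < x ∧ x < D.M (y - 1) := by
  have hP0 := D.P0
  have hP1 := D.P1
  have hQ0 := D.Q0
  have hQ1 := D.Q1
  have hh := D.hh
  rcases hk with ⟨a1, a2, a3, a4, a5⟩ | ⟨a1, a2, a3, a4, a5⟩ | ⟨a1, a2, a3, a4, a5⟩
  · have e1 : D.m y = D.a y := m_hi (by omega)
    have e2 := b_le_M' (D := D) (y := y - 1) (by omega)
    have e3 := D.ab y (by omega) (by omega)
    rw [show y - 1 + 1 = y by ring] at e2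
    omega
  · have e1 : D.M y = D.b y := M_hi (by omega)
    have e2 := m_le_a' (D := D) (y := y - 1) (by omega)
    have e3 := D.ab y (by omega) (by omega)
    rw [show y - 1 + 1 = y by ring] at e2
    omega
  · subst a1
    exact ⟨by omega, le_rfl, a3, a4⟩

/-- **There is no tile between a floor cap and a ceiling cap.** -/
theorem no_FC {x' : ℤ} (hk : CP D j (.F, (x, y))) (hl : CP D j (.C, (x', y + 1)))
    (hx : x' ≤ x + 1) (hx' : x ≤ x' + 1) : False := by
  have hP0 := D.P0
  have hP1 := D.P1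
  have hQ0 := D.Q0
  have hQ1 := D.Q1
  have hh := D.hh
  rcases hk with ⟨a1, a2, a3, a4, a5⟩ | ⟨a1, a2, a3, a4, a5⟩ | ⟨a1, a2, a3, a4, a5⟩
  · have e1 : D.m (y - 1) = D.a y := m_lo' a2
    rcases hl with ⟨b1, b2, b3, b4, b5⟩ | ⟨b1, b2, b3, b4, b5⟩ | ⟨b1, b2, b3, b4, b5⟩
    · have e2 : D.m y = D.a y := m_hi b1
      omega
    · have e2 : D.M (y + 1) = D.b (y + 1) := M_hi (by omega)
      have e3 := D.ov1 y a1 b2
      omega
    · have e2 : D.m y = D.a y := m_hi (by omega)
      omega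
  · have e1 : D.M (y - 1) = D.b y := M_lo' a2.le
    rcases hl with ⟨b1, b2, b3, b4, b5⟩ | ⟨b1, b2, b3, b4, b5⟩ | ⟨b1, b2, b3, b4, b5⟩
    · have e2 : D.m (y + 1) = D.a (y + 1) := m_hi (by omega)
      have e3 := D.ov2 y a1 b2
      omega
    · omega
    · omega
  · rcases hl with ⟨b1, b2, b3, b4, b5⟩ | ⟨b1, b2, b3, b4, b5⟩ | ⟨b1, b2, b3, b4, b5⟩ <;> omega

theorem kt_F : kt (.F, (x, y)) = (x, y) ∨ kt (.F, (x, y)) = (x - 1, y) := by
  unfold kt; simp only; split_ifs <;> simp

theorem rt_F : rt (.F, (x, y)) = (x, y) ∨ rt (.F, (x, y)) = (x - 1, y) := by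
  unfold rt; simp only; split_ifs <;> simp

theorem kt_C : kt (.C, (x, y)) = (x, y - 1) ∨ kt (.C, (x, y)) = (x - 1, y - 1) := by
  unfold kt; simp only; split_ifs <;> simp

theorem rt_C : rt (.C, (x, y)) = (x, y - 1) ∨ rt (.C, (x, y)) = (x - 1, y - 1) := by
  unfold rt; simp only; split_ifs <;> simp

theorem kt_L : kt (.L, (x, y)) = (x, y) ∨ kt (.L, (x, y)) = (x, y - 1) := by
  unfold kt; simp only; split_ifs <;> simp

theorem rt_L : rt (.L, (x, y)) = (x, y) ∨ rt (.L, (x, y)) = (x, y - 1) := by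
  unfold rt; simp only; split_ifs <;> simp

theorem kt_R : kt (.R, (x, y)) = (x - 1, y) ∨ kt (.R, (x, y)) = (x - 1, y - 1) := by
  unfold kt; simp only; split_ifs <;> simp

theorem rt_R : rt (.R, (x, y)) = (x - 1, y) ∨ rt (.R, (x, y)) = (x - 1, y - 1) := by
  unfold rt; simp only; split_ifs <;> simp

/-- the tiles of a cap are in its region -/
theorem reg (h0 : 0 ≤ j) (h1 : j ≤ D.h) {k : Ix} (hk : CP D j k) {t : ℤ × ℤ}
    (ht : t = kt k ∨ t = rt k) : Rg D k.1 t ∧ -1 ≤ t.2 ∧ t.2 < D.h := by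
  obtain ⟨s, x, y⟩ := k
  cases s
  · obtain ⟨a1, a2, a3, a4, -, -⟩ := L_data h0 h1 hk
    have h3 : t = (x, y) ∨ t = (x, y - 1) := by
      rcases ht with h | h <;> rw [h]
      · exact kt_L
      · exact rt_L
    rcases h3 with h | h <;> subst h <;> (unfold Rg; simp only; omega)
  · obtain ⟨a1, a2, a3, a4, -, -⟩ := R_data h0 h1 hk
    have h3 : t = (x - 1, y) ∨ t = (x - 1, y - 1) := by
      rcases ht with h | h <;> rw [h]
      · exact kt_R
      · exact rt_R
    rcases h3 with h | h <;> subst h <;> (unfold Rg; simp only; omega)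
  · obtain ⟨a1, a2, a3, a4⟩ := F_data hk
    have h3 : t = (x, y) ∨ t = (x - 1, y) := by
      rcases ht with h | h <;> rw [h]
      · exact kt_F
      · exact rt_F
    rcases h3 with h | h <;> subst h <;> (unfold Rg; simp only; omega)
  · obtain ⟨a1, a2, a3, a4⟩ := C_data hk
    have h3 : t = (x, y - 1) ∨ t = (x - 1, y - 1) := by
      rcases ht with h | h <;> rw [h]
      · exact kt_C
      · exact rt_C
    rcases h3 with h | h <;> subst h <;> (unfold Rg; simp only; omega)

/-- a common tile: the kinds are equal -/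
theorem kind_eq (h0 : 0 ≤ j) (h1 : j ≤ D.h) {k l : Ix} (hk : CP D j k) (hl : CP D j l) {t : ℤ × ℤ}
    (ht : t = kt k ∨ t = rt k) (ht' : t = kt l ∨ t = rt l) : k.1 = l.1 := by
  have r1 := reg h0 h1 hk ht
  have r2 := reg h0 h1 hl ht'
  have r3 := m_lt_M r1.2.1 r1.2.2
  obtain ⟨s, x, y⟩ := k
  obtain ⟨s', x', y'⟩ := l
  unfold Rg at r1 r2
  cases s <;> cases s' <;> simp only at r1 r2 ⊢
  · omega
  · omega
  · omega
  · omega
  · omega
  · omega
  · omega
  · omega
  · exfalso
    have e1 : t = (x, y) ∨ t = (x - 1, y) := by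
      rcases ht with h | h <;> rw [h]
      · exact kt_F
      · exact rt_F
    have e2 : t = (x', y' - 1) ∨ t = (x' - 1, y' - 1) := by
      rcases ht' with h | h <;> rw [h]
      · exact kt_C
      · exact rt_C
    have e3 : y' = y + 1 ∧ x' ≤ x + 1 ∧ x ≤ x' + 1 := by
      rcases e1 with h | h <;> rcases e2 with h' | h' <;> rw [h] at h' <;>
        simp only [Prod.mk.injEq] at h' <;> omega
    obtain ⟨e3, e4, e5⟩ := e3
    subst e3
    exact no_FC hk hl e4 e5
  · omega
  · omega
  · exfalso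
    have e1 : t = (x', y') ∨ t = (x' - 1, y') := by
      rcases ht' with h | h <;> rw [h]
      · exact kt_F
      · exact rt_F
    have e2 : t = (x, y - 1) ∨ t = (x - 1, y - 1) := by
      rcases ht with h | h <;> rw [h]
      · exact kt_C
      · exact rt_C
    have e3 : y = y' + 1 ∧ x ≤ x' + 1 ∧ x' ≤ x + 1 := by
      rcases e1 with h | h <;> rcases e2 with h' | h' <;> rw [h] at h' <;>
        simp only [Prod.mk.injEq] at h' <;> omega
    obtain ⟨e3, e4, e5⟩ := e3
    subst e3
    exact no_FC hl hk e4 e5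

/-- the colour of a cap -/
theorem col_F {x' : ℤ} (hk : CP D j (.F, (x, y))) (hl : CP D j (.F, (x', y))) (hx : x' = x + 1) :
    False := by
  have hP1 := D.P1
  have hQ1 := D.Q1
  subst hx
  rcases hk with ⟨a1, a2, a3, a4, a5⟩ | ⟨a1, a2, a3, a4, a5⟩ | ⟨a1, a2, a3, a4, a5⟩ <;>
    rcases hl with ⟨b1, b2, b3, b4, b5⟩ | ⟨b1, b2, b3, b4, b5⟩ | ⟨b1, b2, b3, b4, b5⟩
  · rw [← a5] at b5; omega
  · have r3 := m_lt_M (D := D) (y := y - 1) (by omega) (by omega); omega
  · omega
  · have r3 := m_lt_M (D := D) (y := y - 1) (by omega) (by omega); omega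
  · rw [← a5] at b5; omega
  · omega
  · omega
  · omega
  · rw [← a5] at b5; omega

theorem col_C {x' : ℤ} (hk : CP D j (.C, (x, y))) (hl : CP D j (.C, (x', y))) (hx : x' = x + 1) :
    False := by
  have hP0 := D.P0
  have hQ0 := D.Q0
  subst hx
  rcases hk with ⟨a1, a2, a3, a4, a5⟩ | ⟨a1, a2, a3, a4, a5⟩ | ⟨a1, a2, a3, a4, a5⟩ <;>
    rcases hl with ⟨b1, b2, b3, b4, b5⟩ | ⟨b1, b2, b3, b4, b5⟩ | ⟨b1, b2, b3, b4, b5⟩
  · rw [← a5] at b5; omega
  · have r3 := m_lt_M (D := D) (y := y) (by omega) (by omega); omega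
  · omega
  · have r3 := m_lt_M (D := D) (y := y) (by omega) (by omega); omega
  · rw [← a5] at b5; omega
  · omega
  · omega
  · omega
  · rw [← a5] at b5; omega

/-- **The kept tiles of different caps are different.** -/
theorem kt_inj (h0 : 0 ≤ j) (h1 : j ≤ D.h) {k l : Ix} (hk : CP D j k) (hl : CP D j l)
    (h : kt k = kt l) : k = l := by
  have hs := kind_eq h0 h1 hk hl (t := kt k) (Or.inl rfl) (Or.inl h)
  obtain ⟨s, x, y⟩ := k
  obtain ⟨s', x', y'⟩ := l
  simp only at hs
  subst hs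
  cases s
  · obtain ⟨a1, a2, a3, a4, a5, a6⟩ := L_data h0 h1 hk
    obtain ⟨b1, b2, b3, b4, b5, b6⟩ := L_data h0 h1 hl
    unfold kt at h
    simp only at h
    split_ifs at h with c1 c2 c2 <;> simp only [Prod.mk.injEq] at h
    · rw [h.1, h.2]
    · exfalso
      have e : y' - 1 = y := h.2.symm
      rw [e] at b5
      rw [← b5, ← a6] at b6
      omega
    · exfalso
      have e : y - 1 = y' := h.2
      rw [e] at a5
      rw [← a5, ← b6] at a6
      omega
    · rw [h.1, show y = y' by omega]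
  · obtain ⟨a1, a2, a3, a4, a5, a6⟩ := R_data h0 h1 hk
    obtain ⟨b1, b2, b3, b4, b5, b6⟩ := R_data h0 h1 hl
    unfold kt at h
    simp only at h
    split_ifs at h with c1 c2 c2 <;> simp only [Prod.mk.injEq] at h
    · rw [show x = x' by omega, show y = y' by omega]
    · exfalso
      have e : y - 1 = y' := h.2
      rw [e] at a5
      rw [← a5, ← b6] at a6
      omega
    · exfalso
      have e : y' - 1 = y := h.2.symm
      rw [e] at b5
      rw [← b5, ← a6] at b6
      omega
    · rw [show x = x' by omega, show y = y' by omega]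
  · unfold kt at h
    simp only at h
    split_ifs at h with c1 c2 c2 <;> simp only [Prod.mk.injEq] at h
    · rw [h.1, h.2]
    · exfalso
      rw [h.2] at hk
      exact col_F hk hl (by omega)
    · exfalso
      rw [h.2] at hk
      exact col_F hl hk (by omega)
    · rw [show x = x' by omega, show y = y' by omega]
  · unfold kt at h
    simp only at h
    split_ifs at h with c1 c2 c2 <;> simp only [Prod.mk.injEq] at h
    · rw [show x = x' by omega, show y = y' by omega]
    · exfalso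
      rw [show y = y' by omega] at hk
      exact col_C hl hk (by omega)
    · exfalso
      rw [show y = y' by omega] at hk
      exact col_C hk hl (by omega)
    · rw [show x = x' by omega, show y = y' by omega]

/-- **The removed tiles of different caps are different.** -/
theorem rt_inj (h0 : 0 ≤ j) (h1 : j ≤ D.h) {k l : Ix} (hk : CP D j k) (hl : CP D j l)
    (h : rt k = rt l) : k = l := by
  have hs := kind_eq h0 h1 hk hl (t := rt k) (Or.inr rfl) (Or.inr h)
  obtain ⟨s, x, y⟩ := k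
  obtain ⟨s', x', y'⟩ := l
  simp only at hs
  subst hs
  cases s
  · obtain ⟨a1, a2, a3, a4, a5, a6⟩ := L_data h0 h1 hk
    obtain ⟨b1, b2, b3, b4, b5, b6⟩ := L_data h0 h1 hl
    unfold rt at h
    simp only at h
    split_ifs at h with c1 c2 c2 <;> simp only [Prod.mk.injEq] at h
    · rw [h.1, show y = y' by omega]
    · exfalso
      have e : y - 1 = y' := h.2
      rw [e] at a5
      rw [← a5, ← b6] at a6
      omega
    · exfalso
      have e : y' - 1 = y := h.2.symm
      rw [e] at b5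
      rw [← b5, ← a6] at b6
      omega
    · rw [h.1, h.2]
  · obtain ⟨a1, a2, a3, a4, a5, a6⟩ := R_data h0 h1 hk
    obtain ⟨b1, b2, b3, b4, b5, b6⟩ := R_data h0 h1 hl
    unfold rt at h
    simp only at h
    split_ifs at h with c1 c2 c2 <;> simp only [Prod.mk.injEq] at h
    · rw [show x = x' by omega, show y = y' by omega]
    · exfalso
      have e : y' - 1 = y := h.2.symm
      rw [e] at b5
      rw [← b5, ← a6] at b6
      omega
    · exfalso
      have e : y - 1 = y' := h.2
      rw [e] at a5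
      rw [← a5, ← b6] at a6
      omega
    · rw [show x = x' by omega, show y = y' by omega]
  · unfold rt at h
    simp only at h
    split_ifs at h with c1 c2 c2 <;> simp only [Prod.mk.injEq] at h
    · rw [show x = x' by omega, show y = y' by omega]
    · exfalso
      rw [h.2] at hk
      exact col_F hl hk (by omega)
    · exfalso
      rw [h.2] at hk
      exact col_F hk hl (by omega)
    · rw [h.1, h.2]
  · unfold rt at h
    simp only at h
    split_ifs at h with c1 c2 c2 <;> simp only [Prod.mk.injEq] at h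
    · rw [show x = x' by omega, show y = y' by omega]
    · exfalso
      rw [show y = y' by omega] at hk
      exact col_C hk hl (by omega)
    · exfalso
      rw [show y = y' by omega] at hk
      exact col_C hl hk (by omega)
    · rw [show x = x' by omega, show y = y' by omega]

end Pool.Agent.H42.Sp
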